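import Pool.Agent.H27.Final4

/-!
# Star discrepancy in dimension three on a sequence of boxes

For every `m ≥ 3` and every sequence `x_0, x_1, …` of corners in `[0,1)^3` there is one set of `m`
points of `[0,1]^3` whose local discrepancy satisfies

`|D(x_k)| ≤ C (√(ln (k+2)) ln m + ln (k+2)² (1 + ln ln m)^(3/2)) / m`  for all `k`,

with an absolute constant `C`.  So for any family of at most `exp((ln m)^(3/4))` boxes anchored at
the origin there are `m` points whose discrepancy on all these boxes is at most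
`C (ln m)^(3/2) (1 + ln ln m)^(3/2) / m`, the size of the known lower bound for the star discrepancy
in dimension three up to powers of `ln ln m`.
-/

set_option autoImplicit false

namespace Pool.Agent.Results.MP_173de9_an.FewBoxesThree

open MeasureTheory

/-- The local discrepancy `∏ x_j - (1/m) Σ_μ χ_{[0,x]}(ξ^μ)`. -/
noncomputable def localDisc {m d : ℕ} (ξ : Fin m → Fin d → ℝ) (x : Fin d → ℝ) : ℝ :=
  ∏ j, x j - (1 / (m:ℝ)) * ∑ μ : Fin m, (Set.Icc (0 : Fin d → ℝ) x).indicator (fun _ => (1:ℝ)) (ξ μ)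

/-- Elementary facts about `ln m` for `m ≥ 3`. -/
lemma basics (m : ℕ) (hm : 3 ≤ m) : (0 : ℝ) < m ∧ 1 < Real.log m ∧ 0 < Real.log (Real.log m) := by
  have hm3 : (3 : ℝ) ≤ m := by exact_mod_cast hm
  have hlog3 : 1 < Real.log 3 := by
    rw [Real.lt_log_iff_exp_lt (by norm_num)]
    linarith [Real.exp_one_lt_d9]
  have hL1 : 1 < Real.log m := hlog3.trans_le (Real.log_le_log (by norm_num) hm3)
  exact ⟨by linarith, hL1, Real.log_pos hL1⟩

/-- The bound of the helper files in terms of `ln m`. -/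
lemma XX2_le (m : ℕ) (hm : 3 ≤ m) (p : ℝ) :
    Pool.Agent.H27.XX2 (Nat.clog 3 m) p ≤ 4 * (Real.sqrt p * Real.log m +
      p ^ 2 * (1 + Real.log (Real.log m)) ^ (3 / 2 : ℝ)) := by
  obtain ⟨hm0, hL1, hLL⟩ := basics m hm
  set n := Nat.clog 3 m with hn
  have hn1 : 1 ≤ n := Nat.clog_pos (by norm_num) (by omega)
  have hlog3 : 1 ≤ Real.log 3 := by
    rw [Real.le_log_iff_exp_le (by norm_num)]
    linarith [Real.exp_one_lt_d9]
  -- `n ≤ 2 ln m`
  have hn2 : (n : ℝ) ≤ 2 * Real.log m := by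
    have h2 : 3 ^ (n - 1) < m := by
      have := Nat.pow_pred_clog_lt_self (b := 3) (by norm_num) (x := m) (by omega)
      simpa [hn] using this
    have h3 : (3 : ℝ) ^ (n - 1) < m := by exact_mod_cast h2
    have h4 : ((n - 1 : ℕ) : ℝ) * Real.log 3 ≤ Real.log m := by
      rw [← Real.log_pow]
      exact Real.log_le_log (by positivity) h3.le
    have h5 : ((n - 1 : ℕ) : ℝ) = n - 1 := by
      rw [Nat.cast_sub hn1]; norm_num
    rw [h5] at h4
    have h6 : (0 : ℝ) ≤ n - 1 := by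
      have : (1 : ℝ) ≤ n := by exact_mod_cast hn1
      linarith
    nlinarith
  have hn0 : (1 : ℝ) ≤ n := by exact_mod_cast hn1
  -- `1 + ln n ≤ 2 (1 + ln ln m)`
  have hlogn : 1 + Real.log n ≤ 2 * (1 + Real.log (Real.log m)) := by
    have h2 : Real.log n ≤ Real.log (2 * Real.log m) := Real.log_le_log (by linarith) hn2
    rw [Real.log_mul (by norm_num) (by linarith)] at h2
    linarith [Real.log_two_lt_d9]
  have hlogn0 : 0 ≤ Real.log n := Real.log_nonneg hn0
  have h7 : (1 + Real.log n) ^ (3 / 2 : ℝ) ≤ 4 * (1 + Real.log (Real.log m)) ^ (3 / 2 : ℝ) := by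
    calc (1 + Real.log n) ^ (3 / 2 : ℝ) ≤ (2 * (1 + Real.log (Real.log m))) ^ (3 / 2 : ℝ) :=
          Real.rpow_le_rpow (by linarith) hlogn (by norm_num)
      _ = 2 ^ (3 / 2 : ℝ) * (1 + Real.log (Real.log m)) ^ (3 / 2 : ℝ) :=
          Real.mul_rpow (by norm_num) (by linarith)
      _ ≤ 2 ^ (2 : ℝ) * (1 + Real.log (Real.log m)) ^ (3 / 2 : ℝ) := by
          refine mul_le_mul_of_nonneg_right ?_ (by positivity)
          exact Real.rpow_le_rpow_of_exponent_le (by norm_num) (by norm_num)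
      _ = 4 * (1 + Real.log (Real.log m)) ^ (3 / 2 : ℝ) := by norm_num
  have h9 : Real.sqrt p * n ≤ Real.sqrt p * (2 * Real.log m) :=
    mul_le_mul_of_nonneg_left hn2 (Real.sqrt_nonneg p)
  have h8 : p ^ 2 * (1 + Real.log n) ^ (3 / 2 : ℝ) ≤
      p ^ 2 * (4 * (1 + Real.log (Real.log m)) ^ (3 / 2 : ℝ)) :=
    mul_le_mul_of_nonneg_left h7 (sq_nonneg p)
  unfold Pool.Agent.H27.XX2
  have h11 : 0 ≤ Real.sqrt p * Real.log m := by positivity
  linarith

/-- The bound for a sequence of corners. -/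
lemma seq_bound (m : ℕ) (hm : 3 ≤ m) (x : ℕ → Fin 3 → ℝ) (hx : ∀ k i, 0 ≤ x k i ∧ x k i < 1) :
    ∃ ξ : Fin m → Fin 3 → ℝ, (∀ μ, ξ μ ∈ Set.Icc (0 : Fin 3 → ℝ) 1) ∧
      ∀ k : ℕ, |localDisc ξ (x k)| ≤ 480000000 * (Real.sqrt (Real.log (k + 2)) * Real.log m +
        Real.log (k + 2) ^ 2 * (1 + Real.log (Real.log m)) ^ (3 / 2 : ℝ)) / m := by
  obtain ⟨hm0, hL1, hLL⟩ := basics m hm
  obtain ⟨ξ, hξ, h⟩ := Pool.Agent.H27.exists_seq m (Nat.clog 3 m) (by omega)
    (Nat.le_pow_clog (by norm_num) m) (Nat.clog_pos (by norm_num) (by omega)) x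
    (fun k i => (hx k i).1) (fun k i => (hx k i).2)
  refine ⟨ξ, hξ, fun k => (h k).trans ?_⟩
  have h1 := XX2_le m hm (Pool.Agent.H27.pk k)
  have h2 := Pool.Agent.H27.pk_le k
  have h3 := Pool.Agent.H27.one_le_pk k
  have h4 := Pool.Agent.H27.log_two_le k
  set p := Pool.Agent.H27.pk k with hp
  set g := Real.log ((k : ℝ) + 2) with hg
  have h5 : Real.sqrt p ≤ 2 * Real.sqrt g := by
    rw [show (2 : ℝ) * Real.sqrt g = Real.sqrt (2 ^ 2 * g) by
      rw [Real.sqrt_mul (by norm_num), Real.sqrt_sq (by norm_num)]]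
    exact Real.sqrt_le_sqrt (by linarith)
  have h6 : p ^ 2 ≤ 16 * g ^ 2 := by nlinarith
  have h7 : 0 ≤ (1 + Real.log (Real.log m)) ^ (3 / 2 : ℝ) := by positivity
  have h8 : Real.sqrt p * Real.log m ≤ 2 * Real.sqrt g * Real.log m :=
    mul_le_mul_of_nonneg_right h5 (by linarith)
  have h9 := mul_le_mul_of_nonneg_right h6 h7
  have h10 : 0 ≤ Real.sqrt g * Real.log m := by positivity
  exact div_le_div_of_nonneg_right (by linarith) hm0.le

/-- **Star discrepancy in dimension three on few boxes.** There is `C > 0` such that for all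
`m ≥ 3`, with `L = ln m` and `l = 1 + ln ln m`:

* for every sequence `x_0, x_1, …` of points of `[0,1)^3` there is one set `ξ` of `m` points of
  `[0,1]^3` with `|D(x_k)| ≤ C (√(ln (k+2)) L + ln (k+2)² l^(3/2)) / m` for all `k`, where `D` is
  the local discrepancy of `ξ`;
* so for every finite set `S` of points of `[0,1)^3` with `|S| ≤ exp(L^(3/4))` there is a set `ξ`
  of `m` points of `[0,1]^3` with `|D(x)| ≤ C L^(3/2) l^(3/2) / m` for all `x` in `S`. -/
theorem result : ∃ C : ℝ, 0 < C ∧ ∀ m : ℕ, 3 ≤ m →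
    (∀ x : ℕ → Fin 3 → ℝ, (∀ k i, 0 ≤ x k i ∧ x k i < 1) →
      ∃ ξ : Fin m → Fin 3 → ℝ, (∀ μ, ξ μ ∈ Set.Icc (0 : Fin 3 → ℝ) 1) ∧
        ∀ k : ℕ, |localDisc ξ (x k)| ≤ C * (Real.sqrt (Real.log (k + 2)) * Real.log m +
          Real.log (k + 2) ^ 2 * (1 + Real.log (Real.log m)) ^ (3 / 2 : ℝ)) / m) ∧
    (∀ S : Finset (Fin 3 → ℝ), (∀ x ∈ S, ∀ i, 0 ≤ x i ∧ x i < 1) →
      (S.card : ℝ) ≤ Real.exp ((Real.log m) ^ (3 / 4 : ℝ)) →
      ∃ ξ : Fin m → Fin 3 → ℝ, (∀ μ, ξ μ ∈ Set.Icc (0 : Fin 3 → ℝ) 1) ∧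
        ∀ x ∈ S, |localDisc ξ x| ≤ C * ((Real.log m) ^ (3 / 2 : ℝ) *
          (1 + Real.log (Real.log m)) ^ (3 / 2 : ℝ)) / m) := by
  refine ⟨480000000 * 6, by norm_num, fun m hm => ⟨fun x hx => ?_, fun S hS hcard => ?_⟩⟩
  · obtain ⟨hm0, hL1, hLL⟩ := basics m hm
    obtain ⟨ξ, hξ, h⟩ := seq_bound m hm x hx
    refine ⟨ξ, hξ, fun k => (h k).trans ?_⟩
    refine div_le_div_of_nonneg_right ?_ hm0.le
    have h4 := Pool.Agent.H27.log_two_le k
    exact mul_le_mul_of_nonneg_right (by norm_num) (by positivity)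
  · classical
    obtain ⟨hm0, hL1, hLL⟩ := basics m hm
    set e := S.equivFin with he
    obtain ⟨ξ, hξ, h⟩ := seq_bound m hm
      (fun k => if hk : k < S.card then ((e.symm ⟨k, hk⟩ : S) : Fin 3 → ℝ) else 0)
      (fun k i => by
        split_ifs with hk
        · exact hS _ (e.symm ⟨k, hk⟩).2 i
        · simp)
    refine ⟨ξ, hξ, fun x hx => ?_⟩
    have h1 := h (e ⟨x, hx⟩ : ℕ)
    rw [dif_pos (e ⟨x, hx⟩).2, Fin.eta, Equiv.symm_apply_apply] at h1
    refine h1.trans ?_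
    refine div_le_div_of_nonneg_right ?_ hm0.le
    set k : ℕ := (e ⟨x, hx⟩ : ℕ) with hk
    have hkS : k < S.card := (e ⟨x, hx⟩).2
    have hkS' : (k : ℝ) + 1 ≤ S.card := by exact_mod_cast hkS
    set E := (Real.log m) ^ (3 / 4 : ℝ) with hE
    have hE1 : 1 ≤ E := Real.one_le_rpow hL1.le (by norm_num)
    have h4 := Pool.Agent.H27.log_two_le k
    have hkn : (0 : ℝ) ≤ k := Nat.cast_nonneg k
    have h3 : Real.log ((k : ℝ) + 2) ≤ 2 * E := by
      have i1 : (k : ℝ) + 2 ≤ 2 * Real.exp E := by linarith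
      calc Real.log ((k : ℝ) + 2) ≤ Real.log (2 * Real.exp E) :=
            Real.log_le_log (by positivity) i1
        _ = Real.log 2 + E := by
            rw [Real.log_mul (by norm_num) (Real.exp_pos _).ne', Real.log_exp]
        _ ≤ 2 * E := by linarith [Real.log_two_lt_d9]
    set g := Real.log ((k : ℝ) + 2) with hg
    have e2 : E ^ 2 = (Real.log m) ^ (3 / 2 : ℝ) := by
      rw [hE, ← Real.rpow_natCast, ← Real.rpow_mul (by linarith)]
      norm_num
    have e1 : Real.sqrt E * Real.log m ≤ (Real.log m) ^ (3 / 2 : ℝ) := by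
      rw [Real.sqrt_eq_rpow, hE, ← Real.rpow_mul (by linarith)]
      calc (Real.log m) ^ (3 / 4 * (1 / 2) : ℝ) * Real.log m
          = (Real.log m) ^ (3 / 4 * (1 / 2) + 1 : ℝ) := by
            rw [Real.rpow_add (by linarith), Real.rpow_one]
        _ ≤ _ := Real.rpow_le_rpow_of_exponent_le hL1.le (by norm_num)
    have e3 : 1 ≤ (1 + Real.log (Real.log m)) ^ (3 / 2 : ℝ) :=
      Real.one_le_rpow (by linarith) (by norm_num)
    have e4 : 0 ≤ (Real.log m) ^ (3 / 2 : ℝ) := by positivity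
    have i2 : Real.sqrt g ≤ 2 * Real.sqrt E := by
      rw [show (2 : ℝ) * Real.sqrt E = Real.sqrt (2 ^ 2 * E) by
        rw [Real.sqrt_mul (by norm_num), Real.sqrt_sq (by norm_num)]]
      exact Real.sqrt_le_sqrt (by linarith)
    have i3 : Real.sqrt g * Real.log m ≤ 2 * (Real.log m) ^ (3 / 2 : ℝ) := by
      calc Real.sqrt g * Real.log m ≤ (2 * Real.sqrt E) * Real.log m :=
            mul_le_mul_of_nonneg_right i2 (by linarith)
        _ = 2 * (Real.sqrt E * Real.log m) := by ring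
        _ ≤ _ := by linarith
    have i4 : g ^ 2 ≤ 4 * (Real.log m) ^ (3 / 2 : ℝ) := by
      rw [← e2]; nlinarith
    set W := (1 + Real.log (Real.log m)) ^ (3 / 2 : ℝ) with hW
    have i5 : g ^ 2 * W ≤ 4 * (Real.log m) ^ (3 / 2 : ℝ) * W :=
      mul_le_mul_of_nonneg_right i4 (by linarith)
    have i6 : 2 * (Real.log m) ^ (3 / 2 : ℝ) ≤ 2 * ((Real.log m) ^ (3 / 2 : ℝ) * W) := by
      nlinarith
    nlinarith

end Pool.Agent.Results.MP_173de9_an.FewBoxesThree
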