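import Pool.Agent.H27.D4.Up2
import Pool.Agent.H27.D4.Up4
import Pool.Graph.R_pool_sql_team_seeded_63374d34.N261.LP.PA
import Pool.Graph.R_pool_sql_team_seeded_63374d34.N261.LP.PB
import Pool.Graph.R_pool_sql_team_seeded_63374d34.N261.LP.PC
import Pool.Graph.R_pool_sql_team_seeded_63374d34.N261.LP.PC4
import Pool.Graph.R_pool_sql_team_seeded_63374d34.N261.LP.PM
import Pool.Graph.R_pool_sql_team_seeded_63374d34.N261.LP.PW
import Pool.Graph.R_pool_sql_team_seeded_63374d34.N261.LP.PX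
import Pool.Graph.R_seed8.Results.MP_173de9_an.LargeExponents
import Pool.Graph.R_pool_sql_team_seeded_3dad9d7b.Results.MP_173de9_an.StarDiscHalfDim

/-!
# The optimal `L_p` star discrepancy for growing exponents `p` in dimension `d ≥ 4`

The page asks for the order of `D(m,d)_∞` (and of `D(m,d)_1`).  The `L_p` star discrepancy
interpolates between the known case of a fixed exponent `p`, where the order is
`(ln m)^((d-1)/2) / m`, and the case `p = ∞`.  Let `L = ln m` and `l = 1 + ln ln m`.  It is proved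
here, for `d ≥ 4`, that `D(m,d)_p ≤ C (√p L^((d-1)/2) + p^(d/2) L^((d-2)/2) l) / m` for
`1 ≤ p ≤ c L / l²`, with one set of `m` points for all these `p`.  So the upper bound
`C √p L^((d-1)/2) / m`, which is sharp up to a power of `l` by the library theorem
`StarDiscHalfDim`, holds for `p ≤ (L / l²)^(1/(d-1))`; the local discrepancy of the points is
less than `C L^(d/2) l / m` (the size of the known lower bound for `D(m,d)_∞`, up to a power of
`l`) outside a set of measure at most `exp(-L^(2/d))`; and the order is `√p L^((d-1)/2) / m`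
exactly, uniformly in `p`, for `1 ≤ p ≤ L^(1/d) / l`, with the lower bound of the library theorem
`LargeExponents`.  The library's `SharpGrowingExponents` has `p ≤ L^κ`, `κ < 1 / (2 d + 1)`.

The upper bound uses the random sign reversal of the digits of a digital `(0, n, d)`-net of the
library.  What is new is the estimate of the moments of the resulting polynomial in the random
signs: the signs of the coordinates other than the first are peeled off one coordinate at a time by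
a moment inequality for vector valued sign sums, in which the moments of the norm are bounded by
the trace and the powers of the Gram operator; and the number of the points of the net which agree
with the corner in more than `n + C ln n` digits is at most a product, over all coordinates but
one, of numbers which have moments like those of a sum of independent rare indicators.
-/

set_option autoImplicit false

namespace Pool.Agent.Results.MP_173de9_an.LargeExponentsAllDimensions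

open MeasureTheory

/-- The local discrepancy `∏ x_j - Σ_μ λ_μ χ_{[0,x]}(ξ^μ)` of the points `ξ` with the weights `λ`. -/
noncomputable def localDisc {m d : ℕ} (lam : Fin m → ℝ) (ξ : Fin m → Fin d → ℝ) (x : Fin d → ℝ) : ℝ :=
  ∏ j, x j - ∑ μ : Fin m, lam μ * (Set.Icc (0 : Fin d → ℝ) x).indicator (fun _ => (1:ℝ)) (ξ μ)

/-- The `L_p` norm of the weighted local discrepancy over `[0,1]^d`. -/
noncomputable def starDisc (p : ENNReal) {m d : ℕ} (lam : Fin m → ℝ) (ξ : Fin m → Fin d → ℝ) :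
    ENNReal :=
  eLpNorm (localDisc lam ξ) p (volume.restrict (Set.Icc (0 : Fin d → ℝ) 1))

/-- `D(m,d)_p`: the infimum over all `m`-point sets (repetitions allowed) in `[0,1]^d`, all weights
equal to `1 / m`. -/
noncomputable def optDisc (p : ENNReal) (m d : ℕ) : ENNReal :=
  ⨅ (ξ : Fin m → Fin d → ℝ) (_ : ∀ μ, ξ μ ∈ Set.Icc (0 : Fin d → ℝ) 1),
    starDisc p (fun _ => 1 / (m:ℝ)) ξ

/-- The infimum over all `m`-point sets in `[0,1]^d` and all real weights. -/
noncomputable def optWeighted (p : ENNReal) (m d : ℕ) : ENNReal :=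
  ⨅ (lam : Fin m → ℝ) (ξ : Fin m → Fin d → ℝ) (_ : ∀ μ, ξ μ ∈ Set.Icc (0 : Fin d → ℝ) 1),
    starDisc p lam ξ

theorem localDisc_eq {m d : ℕ} (ξ : Fin m → Fin d → ℝ) :
    localDisc (fun _ => 1 / (m : ℝ)) ξ = H730R2.LU.ld ξ := by
  funext x
  unfold localDisc H730R2.LU.ld
  rw [← Finset.mul_sum]

/-- Chebyshev's inequality. -/
lemma tail {d : ℕ} (m : ℕ) (ξ : Fin m → Fin d → ℝ) (p B : ℝ) (hp : 1 ≤ p) (hB : 0 < B)
    (h : starDisc (ENNReal.ofReal p) (fun _ => 1 / (m : ℝ)) ξ ≤ ENNReal.ofReal B) :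
    volume {x ∈ Set.Icc (0 : Fin d → ℝ) 1 | 3 * B ≤ |localDisc (fun _ => 1 / (m : ℝ)) ξ x|} ≤
      ENNReal.ofReal (Real.exp (-p)) := by
  have hp0 : 0 < p := by linarith
  have hmeas : Measurable (localDisc (fun _ => 1 / (m : ℝ)) ξ) := by
    rw [localDisc_eq]
    exact H730R2.LU.measurable_ld ξ
  have h1 := mul_meas_ge_le_pow_eLpNorm' (volume.restrict (Set.Icc (0 : Fin d → ℝ) 1))
    (p := ENNReal.ofReal p) (by simpa using hp0) ENNReal.ofReal_ne_top
    hmeas.aestronglyMeasurable (ENNReal.ofReal (3 * B))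
  rw [ENNReal.toReal_ofReal hp0.le] at h1
  have h2 : (ENNReal.ofReal (3 * B)) ^ p *
      volume {x ∈ Set.Icc (0 : Fin d → ℝ) 1 | 3 * B ≤ |localDisc (fun _ => 1 / (m : ℝ)) ξ x|} ≤ (ENNReal.ofReal B) ^ p := by
    have h3 : volume {x ∈ Set.Icc (0 : Fin d → ℝ) 1 | 3 * B ≤ |localDisc (fun _ => 1 / (m : ℝ)) ξ x|} =
        (volume.restrict (Set.Icc (0 : Fin d → ℝ) 1))
          {x | ENNReal.ofReal (3 * B) ≤ ‖localDisc (fun _ => 1 / (m : ℝ)) ξ x‖ₑ} := by
      rw [Measure.restrict_apply₀ (by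
        exact (measurableSet_le measurable_const hmeas.enorm).nullMeasurableSet)]
      congr 1
      ext x
      simp only [Set.mem_ofPred_eq, Set.mem_inter_iff]
      have h4 : ENNReal.ofReal (3 * B) ≤ ‖localDisc (fun _ => 1 / (m : ℝ)) ξ x‖ₑ ↔ 3 * B ≤ |localDisc (fun _ => 1 / (m : ℝ)) ξ x| := by
        rw [← ofReal_norm, Real.norm_eq_abs,
          ENNReal.ofReal_le_ofReal_iff (abs_nonneg _)]
      rw [h4]
      exact and_comm
    rw [h3]
    exact h1.trans (ENNReal.rpow_le_rpow h hp0.le)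
  have h5 : (ENNReal.ofReal (3 * B)) ^ p = (ENNReal.ofReal 3) ^ p * (ENNReal.ofReal B) ^ p := by
    rw [ENNReal.ofReal_mul (by norm_num), ENNReal.mul_rpow_of_nonneg _ _ hp0.le]
  have hBp0 : (ENNReal.ofReal B) ^ p ≠ 0 :=
    (ENNReal.rpow_pos (ENNReal.ofReal_pos.mpr hB) ENNReal.ofReal_ne_top).ne'
  have hBpt : (ENNReal.ofReal B) ^ p ≠ ⊤ :=
    ENNReal.rpow_ne_top_of_nonneg hp0.le ENNReal.ofReal_ne_top
  set V := volume {x ∈ Set.Icc (0 : Fin d → ℝ) 1 | 3 * B ≤ |localDisc (fun _ => 1 / (m : ℝ)) ξ x|} with hV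
  have h6 : (ENNReal.ofReal 3) ^ p * V ≤ 1 := by
    rw [h5, mul_comm ((ENNReal.ofReal 3) ^ p) _, mul_assoc] at h2
    have h7 : (ENNReal.ofReal B) ^ p * ((ENNReal.ofReal 3) ^ p * V) ≤
        (ENNReal.ofReal B) ^ p * 1 := by rwa [mul_one]
    exact (ENNReal.mul_le_mul_iff_right hBp0 hBpt).mp h7
  have h8 : ENNReal.ofReal (Real.exp p) ≤ (ENNReal.ofReal 3) ^ p := by
    rw [ENNReal.ofReal_rpow_of_nonneg (by norm_num) hp0.le]
    refine ENNReal.ofReal_le_ofReal ?_
    calc Real.exp p = (Real.exp 1) ^ p := by rw [← Real.exp_mul, one_mul]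
      _ ≤ 3 ^ p := Real.rpow_le_rpow (Real.exp_pos _).le (by linarith [Real.exp_one_lt_d9]) hp0.le
  have h9 : ENNReal.ofReal (Real.exp p) * V ≤ 1 := (mul_le_mul_left h8 V).trans h6
  rw [Real.exp_neg, ENNReal.ofReal_inv_of_pos (Real.exp_pos p)]
  exact ENNReal.le_inv_iff_mul_le.mpr (by rw [mul_comm]; exact h9)

/-- the trivial bound of the local discrepancy -/
lemma localDisc_le {d : ℕ} (m : ℕ) (hm : 1 ≤ m) (ξ : Fin m → Fin d → ℝ) (x : Fin d → ℝ)
    (hx : x ∈ Set.Icc (0 : Fin d → ℝ) 1) : |localDisc (fun _ => 1 / (m : ℝ)) ξ x| ≤ 1 := by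
  have hm0 : (0 : ℝ) < m := by exact_mod_cast hm
  unfold localDisc
  have h1 : 0 ≤ ∏ j, x j := Finset.prod_nonneg fun j _ => hx.1 j
  have h2 : ∏ j, x j ≤ 1 := Finset.prod_le_one (fun j _ => hx.1 j) fun j _ => hx.2 j
  have h3 : ∀ μ, 0 ≤ (Set.Icc (0 : Fin d → ℝ) x).indicator (fun _ => (1:ℝ)) (ξ μ) := fun μ =>
    Set.indicator_nonneg (fun _ _ => zero_le_one) _
  have h4 : ∀ μ, (Set.Icc (0 : Fin d → ℝ) x).indicator (fun _ => (1:ℝ)) (ξ μ) ≤ 1 := fun μ =>
    Set.indicator_le_self' (fun _ _ => zero_le_one) _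
  have h5 : 0 ≤ ∑ μ : Fin m, 1 / (m : ℝ) *
      (Set.Icc (0 : Fin d → ℝ) x).indicator (fun _ => (1:ℝ)) (ξ μ) :=
    Finset.sum_nonneg fun μ _ => mul_nonneg (by positivity) (h3 μ)
  have h6 : ∑ μ : Fin m, 1 / (m : ℝ) *
      (Set.Icc (0 : Fin d → ℝ) x).indicator (fun _ => (1:ℝ)) (ξ μ) ≤ 1 := by
    calc _ ≤ ∑ _μ : Fin m, 1 / (m : ℝ) * 1 :=
          Finset.sum_le_sum fun μ _ => mul_le_mul_of_nonneg_left (h4 μ) (by positivity)
      _ = 1 := by
          rw [Finset.sum_const, Finset.card_univ, Fintype.card_fin, nsmul_eq_mul, mul_one,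
            mul_one_div_cancel hm0.ne']
  rw [abs_le]
  constructor <;> linarith

/-- the growth condition for the exponent `L^(2/d)` -/
lemma growth_two (c₀ e : ℝ) (hc₀ : 0 < c₀) (he : 0 < e) : ∃ x₀ : ℝ, ∀ x : ℝ, x₀ ≤ x → 1 ≤ x →
    x ^ (1 - e) ≤ c₀ * x / (1 + Real.log x) ^ 2 := by
  have he2 : 0 < e / 2 := by positivity
  have hs : 0 < Real.sqrt c₀ / 2 := by positivity
  have h1 := (Asymptotics.isLittleO_iff.1 (isLittleO_log_rpow_atTop he2)) hs
  have h2 := (tendsto_rpow_atTop he2).eventually_ge_atTop (2 / Real.sqrt c₀)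
  obtain ⟨x₀, hx₀⟩ := Filter.eventually_atTop.1 (h1.and h2)
  refine ⟨x₀, fun x hx hx1 => ?_⟩
  obtain ⟨h3, h4⟩ := hx₀ x hx
  have hx0 : 0 < x := by linarith
  have hlx : 0 ≤ Real.log x := Real.log_nonneg hx1
  rw [Real.norm_of_nonneg hlx, Real.norm_of_nonneg (by positivity)] at h3
  have hsc : 0 < Real.sqrt c₀ := Real.sqrt_pos.2 hc₀
  have h5 : 1 ≤ Real.sqrt c₀ / 2 * x ^ (e / 2) := by
    rw [div_le_iff₀ hsc] at h4
    linarith
  have h6 : (1 + Real.log x) ^ 2 ≤ c₀ * x ^ e := by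
    calc (1 + Real.log x) ^ 2 ≤ (Real.sqrt c₀ * x ^ (e / 2)) ^ 2 := by
          apply pow_le_pow_left₀ (by linarith)
          linarith
      _ = c₀ * x ^ e := by
          rw [mul_pow, Real.sq_sqrt hc₀.le, ← Real.rpow_natCast (x ^ (e / 2)),
            ← Real.rpow_mul hx0.le]
          congr 2
          push_cast; ring
  rw [le_div_iff₀ (by positivity)]
  calc x ^ (1 - e) * (1 + Real.log x) ^ 2 ≤ x ^ (1 - e) * (c₀ * x ^ e) := by gcongr
    _ = c₀ * (x ^ (1 - e) * x ^ e) := by ring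
    _ = c₀ * x := by
        rw [← Real.rpow_add hx0, sub_add_cancel, Real.rpow_one]

/-- Let `d ≥ 4`.  There are `c, C > 0` and `A` such that for all `m ≥ 3`, with `L = ln m` and
`l = 1 + ln ln m`:
* there is one set of `m` points in `[0,1]^d` such that for all real `p` with
  `1 ≤ p ≤ c L / l²` its `L_p` star discrepancy is at most
  `C (√p L^((d-1)/2) + p^(d/2) L^((d-2)/2) l) / m`, and at most `C √p L^((d-1)/2) / m` if moreover
  `p^(d-1) ≤ L / l²`; moreover the local discrepancy `D(x)` of this set satisfies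
  `|D(x)| < C (√p L^((d-1)/2) + p^(d/2) L^((d-2)/2) l) / m` outside a set of measure at most
  `exp(-p)`, for all these `p`, and `|D(x)| < C L^(d/2) l / m` outside a set of measure at most
  `exp(-L^(2/d))`;
* for all real `p ≥ 1`: `c √(min(p, L)) L^((d-1)/2) / (m l^A) ≤ D_w(m,d)_p ≤ D(m,d)_p`, where
  `D_w(m,d)_p` is the infimum over all point sets and all real weights;
* for all real `p` with `1 ≤ p ≤ L^(1/d) / l`:
  `c √p L^((d-1)/2) / m ≤ D_w(m,d)_p` and `D(m,d)_p ≤ C √p L^((d-1)/2) / m`. -/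
theorem result (d : ℕ) (hd : 4 ≤ d) :
    ∃ c C : ℝ, 0 < c ∧ 0 < C ∧ ∃ A : ℕ, ∀ m : ℕ, 3 ≤ m →
      (∃ ξ : Fin m → Fin d → ℝ, (∀ μ, ξ μ ∈ Set.Icc (0 : Fin d → ℝ) 1) ∧
        (∀ p : ℝ, 1 ≤ p → p ≤ c * Real.log m / (1 + Real.log (Real.log m)) ^ 2 →
          starDisc (ENNReal.ofReal p) (fun _ => 1 / (m : ℝ)) ξ ≤
            ENNReal.ofReal (C * (Real.sqrt p * (Real.log m) ^ (((d : ℝ) - 1) / 2) +
              p ^ ((d : ℝ) / 2) * (Real.log m) ^ (((d : ℝ) - 2) / 2) *
                (1 + Real.log (Real.log m))) / m) ∧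
          (p ^ ((d : ℝ) - 1) ≤ Real.log m / (1 + Real.log (Real.log m)) ^ 2 →
            starDisc (ENNReal.ofReal p) (fun _ => 1 / (m : ℝ)) ξ ≤
              ENNReal.ofReal (C * Real.sqrt p * (Real.log m) ^ (((d : ℝ) - 1) / 2) / m)) ∧
          volume {x ∈ Set.Icc (0 : Fin d → ℝ) 1 |
            C * (Real.sqrt p * (Real.log m) ^ (((d : ℝ) - 1) / 2) +
              p ^ ((d : ℝ) / 2) * (Real.log m) ^ (((d : ℝ) - 2) / 2) *
                (1 + Real.log (Real.log m))) / m ≤ |localDisc (fun _ => 1 / (m : ℝ)) ξ x|} ≤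
            ENNReal.ofReal (Real.exp (-p))) ∧
        volume {x ∈ Set.Icc (0 : Fin d → ℝ) 1 |
            C * (Real.log m) ^ ((d : ℝ) / 2) * (1 + Real.log (Real.log m)) / m ≤
              |localDisc (fun _ => 1 / (m : ℝ)) ξ x|} ≤
          ENNReal.ofReal (Real.exp (-(Real.log m) ^ (2 / (d : ℝ))))) ∧
      (∀ p : ℝ, 1 ≤ p →
        ENNReal.ofReal (c * Real.sqrt (min p (Real.log m)) * (Real.log m) ^ (((d : ℝ) - 1) / 2) /
            (m * (1 + Real.log (Real.log m)) ^ A)) ≤ optWeighted (ENNReal.ofReal p) m d ∧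
        optWeighted (ENNReal.ofReal p) m d ≤ optDisc (ENNReal.ofReal p) m d) ∧
      (∀ p : ℝ, 1 ≤ p → p ≤ (Real.log m) ^ (1 / (d : ℝ)) / (1 + Real.log (Real.log m)) →
        ENNReal.ofReal (c * Real.sqrt p * (Real.log m) ^ (((d : ℝ) - 1) / 2) / m) ≤
          optWeighted (ENNReal.ofReal p) m d ∧
        optDisc (ENNReal.ofReal p) m d ≤
          ENNReal.ofReal (C * Real.sqrt p * (Real.log m) ^ (((d : ℝ) - 1) / 2) / m)) := by
  have hC1 := N261.LP.t_C1
  have hC2 := N261.LP.t_C2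
  obtain ⟨k, rfl⟩ : ∃ k, d = k + 1 := ⟨d - 1, by omega⟩
  have hk : 3 ≤ k := by omega
  have hkR : (3 : ℝ) ≤ k := by exact_mod_cast hk
  have hk1 : (((k + 1 : ℕ) : ℝ) - 1) = (k : ℝ) := by push_cast; ring
  have hk2 : (((k + 1 : ℕ) : ℝ) - 2) = (k : ℝ) - 1 := by push_cast; ring
  have hk3 : ((k + 1 : ℕ) : ℝ) = (k : ℝ) + 1 := by push_cast; ring
  obtain ⟨Ca, hCa, hUa⟩ := H27.D4.upper2 (N261.LP.t_B N261.LP.t_A) hC1 hC2
    (N261.LP.t_C4 hC1 hC2) N261.LP.t_M1 N261.LP.t_W N261.LP.t_X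
    N261.LP.t_P k hk (1 / ((k : ℝ) + 1)) (by positivity) (by
      rw [one_div, inv_mul_lt_iff₀ (by positivity)]; linarith)
  obtain ⟨c₀, Cb, hc₀, hCb, hUb⟩ := H27.D4.upper4 (N261.LP.t_B N261.LP.t_A) hC1 hC2
    (N261.LP.t_C4 hC1 hC2) N261.LP.t_M1 N261.LP.t_W N261.LP.t_X N261.LP.t_P k hk
  obtain ⟨c₁, hc₁, hLow₁⟩ := LargeExponents.result (k + 1) (by omega)
  obtain ⟨c₂, hc₂, A, hLow₂⟩ := StarDiscHalfDim.result (k + 1) (by omega)
  obtain ⟨x₀, hx₀⟩ := growth_two c₀ (1 - 2 / ((k : ℝ) + 1)) hc₀ (by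
    rw [sub_pos, div_lt_one (by positivity)]; linarith)
  set m₀ : ℕ := ⌈Real.exp x₀⌉₊ with hm₀
  set C : ℝ := Ca + 6 * Cb + m₀ with hC
  have hCa' : Ca ≤ C := by
    have : (0 : ℝ) ≤ m₀ := Nat.cast_nonneg _
    rw [hC]; linarith
  have hCb6 : 6 * Cb ≤ C := by
    have : (0 : ℝ) ≤ m₀ := Nat.cast_nonneg _
    rw [hC]; linarith
  have hC0 : 0 < C := by linarith
  refine ⟨min c₀ (min c₁ c₂), C, lt_min hc₀ (lt_min hc₁ hc₂), hC0, A, fun m hm => ?_⟩
  have hm3 : (3 : ℝ) ≤ m := by exact_mod_cast hm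
  have hm0 : (0 : ℝ) < m := by linarith
  -- logarithms
  have hL1 : 1 < Real.log m := by
    rw [Real.lt_log_iff_exp_lt hm0]
    exact lt_of_lt_of_le Real.exp_one_lt_three hm3
  have hL0 : 0 < Real.log m := by linarith
  have hLL : 0 < Real.log (Real.log m) := Real.log_pos hL1
  rw [hk1, hk2, hk3]
  set L : ℝ := Real.log m with hL
  set l : ℝ := 1 + Real.log L with hl
  have hl1 : 1 ≤ l := by rw [hl]; linarith
  have hl0 : 0 < l := by linarith
  refine ⟨?_, fun p hp1 => ?_, fun p hp1 hp2 => ?_⟩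
  · obtain ⟨ξ, hξ, hξp⟩ := hUb m hm
    refine ⟨ξ, hξ, fun p hp1 hp2 => ?_, ?_⟩
    · have hp0 : 0 < p := by linarith
      set S1 : ℝ := Real.sqrt p * L ^ ((k : ℝ) / 2) with hS1
      set S2 : ℝ := p ^ (((k : ℝ) + 1) / 2) * L ^ (((k : ℝ) - 1) / 2) * l with hS2
      have hS10 : 0 ≤ S1 := by positivity
      have hS20 : 0 ≤ S2 := by positivity
      have hb : starDisc (ENNReal.ofReal p) (fun _ => 1 / (m : ℝ)) ξ ≤
          ENNReal.ofReal (Cb * (S1 + S2) / m) := by
        unfold starDisc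
        rw [localDisc_eq]
        refine hξp p hp1 (hp2.trans ?_)
        refine div_le_div_of_nonneg_right ?_ (by positivity)
        exact mul_le_mul_of_nonneg_right (min_le_left _ _) hL0.le
      have hS12 : 0 < S1 + S2 := by
        have : 0 < S1 := by positivity
        linarith
      refine ⟨hb.trans (ENNReal.ofReal_le_ofReal ?_), fun hp3 =>
        hb.trans (ENNReal.ofReal_le_ofReal ?_), ?_⟩
      · refine div_le_div_of_nonneg_right ?_ hm0.le
        exact mul_le_mul_of_nonneg_right (by linarith) (by positivity)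
      · refine div_le_div_of_nonneg_right ?_ hm0.le
        have hS : S2 ≤ S1 := by
          have e1 : p ^ ((k : ℝ) / 2) * l ≤ L ^ (1 / 2 : ℝ) := by
            have e2 : (p ^ (k : ℝ)) ^ (1 / 2 : ℝ) ≤ (L / l ^ 2) ^ (1 / 2 : ℝ) :=
              Real.rpow_le_rpow (by positivity) hp3 (by positivity)
            have e3 : (L / l ^ 2) ^ (1 / 2 : ℝ) = L ^ (1 / 2 : ℝ) / l := by
              rw [Real.div_rpow hL0.le (by positivity), ← Real.sqrt_eq_rpow (l ^ 2),
                Real.sqrt_sq hl0.le]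
            have e4 : (p ^ (k : ℝ)) ^ (1 / 2 : ℝ) = p ^ ((k : ℝ) / 2) := by
              rw [← Real.rpow_mul hp0.le]
              congr 1; ring
            rw [e3, e4] at e2
            calc p ^ ((k : ℝ) / 2) * l ≤ L ^ (1 / 2 : ℝ) / l * l := by gcongr
              _ = L ^ (1 / 2 : ℝ) := by field_simp
          have e5 : p ^ (((k : ℝ) + 1) / 2) = Real.sqrt p * p ^ ((k : ℝ) / 2) := by
            rw [Real.sqrt_eq_rpow, ← Real.rpow_add hp0]
            congr 1; ring
          have e6 : L ^ ((k : ℝ) / 2) = L ^ (1 / 2 : ℝ) * L ^ (((k : ℝ) - 1) / 2) := by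
            rw [← Real.rpow_add hL0]
            congr 1; ring
          calc S2 = Real.sqrt p * (p ^ ((k : ℝ) / 2) * l) * L ^ (((k : ℝ) - 1) / 2) := by
                rw [hS2, e5]; ring
            _ ≤ Real.sqrt p * L ^ (1 / 2 : ℝ) * L ^ (((k : ℝ) - 1) / 2) := by gcongr
            _ = S1 := by rw [hS1, e6]; ring
        calc Cb * (S1 + S2) ≤ Cb * (S1 + S1) := by gcongr
          _ = 2 * Cb * S1 := by ring
          _ ≤ C * S1 := mul_le_mul_of_nonneg_right (by linarith) hS10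
          _ = _ := by rw [hS1]; ring
      · refine (measure_mono ?_).trans (tail m ξ p (Cb * (S1 + S2) / m) hp1 (by positivity) hb)
        rintro x ⟨hx1, hx2⟩
        refine ⟨hx1, le_trans ?_ hx2⟩
        rw [← mul_div_assoc]
        refine div_le_div_of_nonneg_right ?_ hm0.le
        rw [← mul_assoc]
        exact mul_le_mul_of_nonneg_right (by linarith) hS12.le
    · -- the exponent `L^(2/d)`
      rcases le_or_gt x₀ L with hxL | hxL
      · set p : ℝ := L ^ (2 / ((k : ℝ) + 1)) with hp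
        have hp1 : 1 ≤ p := Real.one_le_rpow hL1.le (by positivity)
        have hp0 : 0 < p := by linarith
        have hp2 : p ≤ c₀ * L / l ^ 2 := by
          have h5 := hx₀ L hxL hL1.le
          rw [sub_sub_cancel] at h5
          exact h5
        have hb := hξp p hp1 hp2
        have e1 : Real.sqrt p * L ^ ((k : ℝ) / 2) ≤ L ^ (((k : ℝ) + 1) / 2) * l := by
          have f1 : Real.sqrt p ≤ L ^ (1 / 2 : ℝ) := by
            rw [Real.sqrt_eq_rpow, hp, ← Real.rpow_mul hL0.le]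
            apply Real.rpow_le_rpow_of_exponent_le hL1.le
            rw [div_mul_div_comm, mul_one, div_le_div_iff₀ (by positivity) (by norm_num)]
            linarith
          calc Real.sqrt p * L ^ ((k : ℝ) / 2) ≤ L ^ (1 / 2 : ℝ) * L ^ ((k : ℝ) / 2) := by gcongr
            _ = L ^ (((k : ℝ) + 1) / 2) * 1 := by
                rw [← Real.rpow_add hL0, mul_one]
                congr 1; ring
            _ ≤ L ^ (((k : ℝ) + 1) / 2) * l := by gcongr
        have e2 : p ^ (((k : ℝ) + 1) / 2) * L ^ (((k : ℝ) - 1) / 2) * l =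
            L ^ (((k : ℝ) + 1) / 2) * l := by
          have f1 : p ^ (((k : ℝ) + 1) / 2) = L ^ (1 : ℝ) := by
            rw [hp, ← Real.rpow_mul hL0.le]
            congr 1
            field_simp
          rw [f1, ← Real.rpow_add hL0]
          congr 2; ring
        have hb2 : starDisc (ENNReal.ofReal p) (fun _ => 1 / (m : ℝ)) ξ ≤
            ENNReal.ofReal (2 * Cb * (L ^ (((k : ℝ) + 1) / 2) * l) / m) := by
          unfold starDisc
          rw [localDisc_eq]
          refine hb.trans (ENNReal.ofReal_le_ofReal ?_)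
          refine div_le_div_of_nonneg_right ?_ hm0.le
          rw [e2]
          calc Cb * (Real.sqrt p * L ^ ((k : ℝ) / 2) + L ^ (((k : ℝ) + 1) / 2) * l) ≤
                Cb * (L ^ (((k : ℝ) + 1) / 2) * l + L ^ (((k : ℝ) + 1) / 2) * l) := by gcongr
            _ = _ := by ring
        refine (measure_mono ?_).trans (tail m ξ p _ hp1 (by positivity) hb2)
        rintro x ⟨hx1, hx2⟩
        refine ⟨hx1, le_trans ?_ hx2⟩
        rw [← mul_div_assoc]
        refine div_le_div_of_nonneg_right ?_ hm0.le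
        have f2 : 0 ≤ L ^ (((k : ℝ) + 1) / 2) * l := by positivity
        calc 3 * (2 * Cb * (L ^ (((k : ℝ) + 1) / 2) * l)) =
              6 * Cb * (L ^ (((k : ℝ) + 1) / 2) * l) := by ring
          _ ≤ C * (L ^ (((k : ℝ) + 1) / 2) * l) := mul_le_mul_of_nonneg_right hCb6 f2
          _ = _ := by ring
      · have hmm : (m : ℝ) < C := by
          have f1 : (m : ℝ) < Real.exp x₀ := by
            rw [← Real.log_lt_iff_lt_exp hm0]
            exact hxL
          have f2 : Real.exp x₀ ≤ m₀ := Nat.le_ceil _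
          rw [hC]; linarith
        have hempty : {x ∈ Set.Icc (0 : Fin (k + 1) → ℝ) 1 |
            C * L ^ (((k : ℝ) + 1) / 2) * l / m ≤ |localDisc (fun _ => 1 / (m : ℝ)) ξ x|} = ∅ := by
          rw [Set.eq_empty_iff_forall_notMem]
          rintro x ⟨hx1, hx2⟩
          have f3 := localDisc_le m (by omega) ξ x hx1
          have f4 : (1 : ℝ) ≤ L ^ (((k : ℝ) + 1) / 2) := Real.one_le_rpow hL1.le (by positivity)
          have f5 : 1 ≤ L ^ (((k : ℝ) + 1) / 2) * l := one_le_mul_of_one_le_of_one_le f4 hl1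
          have f6 : 1 < C * L ^ (((k : ℝ) + 1) / 2) * l / m := by
            rw [one_lt_div hm0, mul_assoc]
            nlinarith
          linarith
        rw [hempty, measure_empty]
        exact zero_le
  · obtain ⟨h1, -, h3⟩ := hLow₂ m hm
    have h4 := h1 (ENNReal.ofReal p) (by
      rw [← ENNReal.ofReal_one]; exact ENNReal.ofReal_le_ofReal hp1)
    rw [hk1] at h4
    refine ⟨le_trans ?_ h4, h3 _⟩
    have hmin : ENNReal.ofReal (Real.sqrt (min p L)) ≤ min ((ENNReal.ofReal p) ^ (1 / 2 : ℝ))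
        (ENNReal.ofReal (L ^ (1 / 2 : ℝ))) := by
      refine le_min ?_ (ENNReal.ofReal_le_ofReal ?_)
      · rw [ENNReal.ofReal_rpow_of_nonneg (by linarith) (by norm_num), ← Real.sqrt_eq_rpow]
        exact ENNReal.ofReal_le_ofReal (Real.sqrt_le_sqrt (min_le_left _ _))
      · rw [← Real.sqrt_eq_rpow]
        exact Real.sqrt_le_sqrt (min_le_right _ _)
    calc ENNReal.ofReal (min c₀ (min c₁ c₂) * Real.sqrt (min p L) * L ^ ((k : ℝ) / 2) /
          (m * l ^ A))
        ≤ ENNReal.ofReal ((c₂ * L ^ ((k : ℝ) / 2) / (m * l ^ A)) * Real.sqrt (min p L)) := by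
          apply ENNReal.ofReal_le_ofReal
          have e1 : min c₀ (min c₁ c₂) ≤ c₂ := (min_le_right _ _).trans (min_le_right _ _)
          calc min c₀ (min c₁ c₂) * Real.sqrt (min p L) * L ^ ((k : ℝ) / 2) / (m * l ^ A) ≤
                c₂ * Real.sqrt (min p L) * L ^ ((k : ℝ) / 2) / (m * l ^ A) := by gcongr
            _ = _ := by ring
      _ = ENNReal.ofReal (c₂ * L ^ ((k : ℝ) / 2) / (m * l ^ A)) *
          ENNReal.ofReal (Real.sqrt (min p L)) := ENNReal.ofReal_mul (by positivity)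
      _ ≤ _ := by gcongr
  · obtain ⟨h1, h2⟩ := hLow₁ m hm (ENNReal.ofReal p) (by
      rw [← ENNReal.ofReal_one]; exact ENNReal.ofReal_le_ofReal hp1)
    rw [hk1, hk3] at h1
    have hp3 : p ≤ L ^ (1 / ((k : ℝ) + 1)) :=
      hp2.trans (div_le_self (by positivity) hl1)
    obtain ⟨ξ, hξ, hξp⟩ := hUa m (by omega)
    constructor
    · refine le_trans ?_ h1
      have hR : Real.sqrt p ≤ L ^ (1 / (2 * ((k : ℝ) + 1))) / (Real.log L) ^ (1 / 2 : ℝ) := by
        have e1 : p ≤ L ^ (1 / ((k : ℝ) + 1)) / Real.log L := by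
          refine hp2.trans ?_
          gcongr
          rw [hl]; linarith
        rw [Real.sqrt_eq_rpow]
        refine (Real.rpow_le_rpow (by linarith) e1 (by norm_num)).trans (le_of_eq ?_)
        rw [Real.div_rpow (by positivity) hLL.le, ← Real.rpow_mul hL0.le]
        congr 2
        field_simp
      have hmin : ENNReal.ofReal (Real.sqrt p) ≤ min ((ENNReal.ofReal p) ^ (1 / 2 : ℝ))
          (ENNReal.ofReal (L ^ (1 / (2 * ((k : ℝ) + 1))) / (Real.log L) ^ (1 / 2 : ℝ))) := by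
        refine le_min ?_ (ENNReal.ofReal_le_ofReal hR)
        rw [ENNReal.ofReal_rpow_of_nonneg (by linarith) (by norm_num), ← Real.sqrt_eq_rpow]
      calc ENNReal.ofReal (min c₀ (min c₁ c₂) * Real.sqrt p * L ^ ((k : ℝ) / 2) / m)
          ≤ ENNReal.ofReal ((c₁ * L ^ ((k : ℝ) / 2) / m) * Real.sqrt p) := by
            apply ENNReal.ofReal_le_ofReal
            have e1 : min c₀ (min c₁ c₂) ≤ c₁ := (min_le_right _ _).trans (min_le_left _ _)
            calc min c₀ (min c₁ c₂) * Real.sqrt p * L ^ ((k : ℝ) / 2) / m ≤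
                  c₁ * Real.sqrt p * L ^ ((k : ℝ) / 2) / m := by gcongr
              _ = _ := by ring
        _ = ENNReal.ofReal (c₁ * L ^ ((k : ℝ) / 2) / m) * ENNReal.ofReal (Real.sqrt p) :=
            ENNReal.ofReal_mul (by positivity)
        _ ≤ _ := by gcongr
    · refine (iInf₂_le ξ hξ).trans ?_
      have h5 := hξp p hp1 hp3
      unfold starDisc
      rw [localDisc_eq]
      refine h5.trans (ENNReal.ofReal_le_ofReal ?_)
      refine div_le_div_of_nonneg_right ?_ hm0.le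
      gcongr

end Pool.Agent.Results.MP_173de9_an.LargeExponentsAllDimensions
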