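import Pool.Agent.H27.Final3
import Pool.Graph.R_pool_sql_team_seeded_3dad9d7b.Results.MP_173de9_an.StarDiscHalfDim
import Pool.Graph.R_seed8.Results.MP_173de9_an.LargeExponents

/-!
# The optimal `L_p` star discrepancy in dimension three for large exponents `p`

For every `m ≥ 3` there is one set of `m` points in `[0,1]^3` whose `L_p` star discrepancy is

`≤ C (√p ln m + p² (1 + ln ln m)^(3/2)) / m`  for all real `p ≥ 1` at once,

with an absolute constant `C`; so it is `≤ C √p ln m / m` for `p ≤ (ln m)^(2/3) / (1 + ln ln m)`.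
In other words its discrepancy function is below this bound outside a set of measure at most
`exp(-p)`, for every `p ≥ 1`: a Gaussian tail up to `p = (ln m)^(2/3) / (1 + ln ln m)`; and with
`p = (ln m)^(3/4)` it is at most `C (ln m)^(3/2) (1 + ln ln m)^(3/2) / m`, the size of the known lower
bound for the sup norm up to powers of `ln ln m`, outside a set of measure `exp(-(ln m)^(3/4))`.
Together with lower bounds of earlier results this gives the exact order `√p ln m / m` of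
`D(m,3)_p` for `1 ≤ p ≤ (ln m)^(1/3) / (1 + ln ln m)`, and its order up to powers of `ln ln m` for
all `1 ≤ p ≤ (ln m)^(2/3)`.

The point sets are digital `(0,n,3)`-nets in base 3, whose third generating matrix is built from a
triangular array of independent random signs.  For a fixed corner of the box the discrepancy is a
sum of local terms along random walks on `ZMod 3`; it is a martingale up to `O(n)`, with a variance
which is controlled by the runs of zeros of the rows of the array.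
-/

set_option autoImplicit false

namespace Pool.Agent.Results.MP_173de9_an.LargeExponentsThree

open MeasureTheory

/-- The local discrepancy `∏ x_j - (1/m) Σ_μ χ_{[0,x]}(ξ^μ)`. -/
noncomputable def localDisc {m d : ℕ} (ξ : Fin m → Fin d → ℝ) (x : Fin d → ℝ) : ℝ :=
  ∏ j, x j - (1 / (m:ℝ)) * ∑ μ : Fin m, (Set.Icc (0 : Fin d → ℝ) x).indicator (fun _ => (1:ℝ)) (ξ μ)

/-- The `L_q` norm of the local discrepancy over `[0,1]^d`. -/
noncomputable def starDisc (q : ENNReal) {m d : ℕ} (ξ : Fin m → Fin d → ℝ) : ENNReal :=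
  eLpNorm (localDisc ξ) q (volume.restrict (Set.Icc (0 : Fin d → ℝ) 1))

/-- `D(m,d)_q`: the infimum over all `m`-point sets (repetitions allowed) in `[0,1]^d`. -/
noncomputable def optDisc (q : ENNReal) (m d : ℕ) : ENNReal :=
  ⨅ (ξ : Fin m → Fin d → ℝ) (_ : ∀ μ, ξ μ ∈ Set.Icc (0 : Fin d → ℝ) 1), starDisc q ξ

lemma optDisc_eq (q : ENNReal) (m d : ℕ) :
    optDisc q m d = StarDiscHalfDim.optDisc q m d := by
  unfold optDisc StarDiscHalfDim.optDisc starDisc StarDiscHalfDim.starDisc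
  have h : ∀ ξ : Fin m → Fin d → ℝ, localDisc ξ =
      StarDiscHalfDim.localDisc (fun _ => 1 / (m : ℝ)) ξ := by
    intro ξ
    funext x
    unfold localDisc StarDiscHalfDim.localDisc
    rw [Finset.mul_sum]
  simp only [h]

lemma optDisc_eq' (q : ENNReal) (m d : ℕ) :
    optDisc q m d = LargeExponents.optDisc q m d := by
  unfold optDisc LargeExponents.optDisc starDisc LargeExponents.starDisc
  have h : ∀ ξ : Fin m → Fin d → ℝ, localDisc ξ =
      LargeExponents.localDisc (fun _ => 1 / (m : ℝ)) ξ := by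
    intro ξ
    funext x
    unfold localDisc LargeExponents.localDisc
    rw [Finset.mul_sum]
  simp only [h]

/-- Elementary facts about `ln m` for `m ≥ 3`. -/
lemma basics (m : ℕ) (hm : 3 ≤ m) : (0 : ℝ) < m ∧ 1 < Real.log m ∧ 0 < Real.log (Real.log m) := by
  have hm3 : (3 : ℝ) ≤ m := by exact_mod_cast hm
  have hlog3 : 1 < Real.log 3 := by
    rw [Real.lt_log_iff_exp_lt (by norm_num)]
    linarith [Real.exp_one_lt_d9]
  have hL1 : 1 < Real.log m := hlog3.trans_le (Real.log_le_log (by norm_num) hm3)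
  exact ⟨by linarith, hL1, Real.log_pos hL1⟩

/-- The bound of the helper files in terms of `ln m`. -/
lemma XX2_le (m : ℕ) (hm : 3 ≤ m) (p : ℝ) :
    Pool.Agent.H27.XX2 (Nat.clog 3 m) p ≤ 4 * (Real.sqrt p * Real.log m +
      p ^ 2 * (1 + Real.log (Real.log m)) ^ (3 / 2 : ℝ)) := by
  obtain ⟨hm0, hL1, hLL⟩ := basics m hm
  set n := Nat.clog 3 m with hn
  have hn1 : 1 ≤ n := Nat.clog_pos (by norm_num) (by omega)
  have hlog3 : 1 ≤ Real.log 3 := by
    rw [Real.le_log_iff_exp_le (by norm_num)]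
    linarith [Real.exp_one_lt_d9]
  -- `n ≤ 2 ln m`
  have hn2 : (n : ℝ) ≤ 2 * Real.log m := by
    have h2 : 3 ^ (n - 1) < m := by
      have := Nat.pow_pred_clog_lt_self (b := 3) (by norm_num) (x := m) (by omega)
      simpa [hn] using this
    have h3 : (3 : ℝ) ^ (n - 1) < m := by exact_mod_cast h2
    have h4 : ((n - 1 : ℕ) : ℝ) * Real.log 3 ≤ Real.log m := by
      rw [← Real.log_pow]
      exact Real.log_le_log (by positivity) h3.le
    have h5 : ((n - 1 : ℕ) : ℝ) = n - 1 := by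
      rw [Nat.cast_sub hn1]; norm_num
    rw [h5] at h4
    have h6 : (0 : ℝ) ≤ n - 1 := by
      have : (1 : ℝ) ≤ n := by exact_mod_cast hn1
      linarith
    nlinarith
  have hn0 : (1 : ℝ) ≤ n := by exact_mod_cast hn1
  -- `1 + ln n ≤ 2 (1 + ln ln m)`
  have hlogn : 1 + Real.log n ≤ 2 * (1 + Real.log (Real.log m)) := by
    have h2 : Real.log n ≤ Real.log (2 * Real.log m) := Real.log_le_log (by linarith) hn2
    rw [Real.log_mul (by norm_num) (by linarith)] at h2
    linarith [Real.log_two_lt_d9]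
  have hlogn0 : 0 ≤ Real.log n := Real.log_nonneg hn0
  have h7 : (1 + Real.log n) ^ (3 / 2 : ℝ) ≤ 4 * (1 + Real.log (Real.log m)) ^ (3 / 2 : ℝ) := by
    calc (1 + Real.log n) ^ (3 / 2 : ℝ) ≤ (2 * (1 + Real.log (Real.log m))) ^ (3 / 2 : ℝ) :=
          Real.rpow_le_rpow (by linarith) hlogn (by norm_num)
      _ = 2 ^ (3 / 2 : ℝ) * (1 + Real.log (Real.log m)) ^ (3 / 2 : ℝ) :=
          Real.mul_rpow (by norm_num) (by linarith)
      _ ≤ 2 ^ (2 : ℝ) * (1 + Real.log (Real.log m)) ^ (3 / 2 : ℝ) := by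
          refine mul_le_mul_of_nonneg_right ?_ (by positivity)
          exact Real.rpow_le_rpow_of_exponent_le (by norm_num) (by norm_num)
      _ = 4 * (1 + Real.log (Real.log m)) ^ (3 / 2 : ℝ) := by norm_num
  have h9 : Real.sqrt p * n ≤ Real.sqrt p * (2 * Real.log m) :=
    mul_le_mul_of_nonneg_left hn2 (Real.sqrt_nonneg p)
  have h8 : p ^ 2 * (1 + Real.log n) ^ (3 / 2 : ℝ) ≤
      p ^ 2 * (4 * (1 + Real.log (Real.log m)) ^ (3 / 2 : ℝ)) :=
    mul_le_mul_of_nonneg_left h7 (sq_nonneg p)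
  unfold Pool.Agent.H27.XX2
  have h11 : 0 ≤ Real.sqrt p * Real.log m := by positivity
  linarith

/-- One point set for all exponents. -/
lemma upper (m : ℕ) (hm : 3 ≤ m) : ∃ ξ : Fin m → Fin 3 → ℝ,
    (∀ μ, ξ μ ∈ Set.Icc (0 : Fin 3 → ℝ) 1) ∧ ∀ p : ℝ, 1 ≤ p →
      starDisc (ENNReal.ofReal p) ξ ≤ ENNReal.ofReal (80000000 *
        (Real.sqrt p * Real.log m + p ^ 2 * (1 + Real.log (Real.log m)) ^ (3 / 2 : ℝ)) / m) := by
  obtain ⟨hm0, hL1, hLL⟩ := basics m hm
  obtain ⟨ξ, hξ, h⟩ := Pool.Agent.H27.exists_all m (Nat.clog 3 m) (by omega)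
    (Nat.le_pow_clog (by norm_num) m) (Nat.clog_pos (by norm_num) (by omega))
  refine ⟨ξ, hξ, fun p hp => (h p hp).trans (ENNReal.ofReal_le_ofReal ?_)⟩
  have h1 := XX2_le m hm p
  exact div_le_div_of_nonneg_right (by linarith) hm0.le

/-- For `1 ≤ p ≤ (ln m)^(2/3) / (1 + ln ln m)` the second term of the bound is at most the first. -/
lemma bound_range (m : ℕ) (hm : 3 ≤ m) (p : ℝ) (hp : 1 ≤ p)
    (h : p ≤ (Real.log m) ^ (2 / 3 : ℝ) / (1 + Real.log (Real.log m))) :
    80000000 * (Real.sqrt p * Real.log m +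
      p ^ 2 * (1 + Real.log (Real.log m)) ^ (3 / 2 : ℝ)) / m ≤
      160000000 * (Real.sqrt p * Real.log m) / m := by
  obtain ⟨hm0, hL1, hLL⟩ := basics m hm
  have hp0 : 0 ≤ p := by linarith
  set ell := 1 + Real.log (Real.log m) with hell
  have hell0 : 0 < ell := by linarith
  rw [le_div_iff₀ hell0] at h
  have h1 : (p * ell) ^ (3 / 2 : ℝ) ≤ Real.log m := by
    calc (p * ell) ^ (3 / 2 : ℝ) ≤ ((Real.log m) ^ (2 / 3 : ℝ)) ^ (3 / 2 : ℝ) :=
          Real.rpow_le_rpow (by positivity) h (by norm_num)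
      _ = Real.log m := by
          rw [← Real.rpow_mul (by linarith)]
          norm_num
  rw [Real.mul_rpow hp0 hell0.le] at h1
  have h2 : p ^ 2 = Real.sqrt p * p ^ (3 / 2 : ℝ) := by
    rw [Real.sqrt_eq_rpow, ← Real.rpow_add (by linarith), ← Real.rpow_natCast]
    norm_num
  have h3 : p ^ 2 * ell ^ (3 / 2 : ℝ) ≤ Real.sqrt p * Real.log m := by
    rw [h2, mul_assoc]
    exact mul_le_mul_of_nonneg_left h1 (Real.sqrt_nonneg p)
  exact div_le_div_of_nonneg_right (by linarith) hm0.le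

/-- Chebyshev's inequality. -/
lemma tail (m : ℕ) (ξ : Fin m → Fin 3 → ℝ) (p B : ℝ) (hp : 1 ≤ p) (hB : 0 < B)
    (h : starDisc (ENNReal.ofReal p) ξ ≤ ENNReal.ofReal B) :
    volume {x ∈ Set.Icc (0 : Fin 3 → ℝ) 1 | 3 * B ≤ |localDisc ξ x|} ≤
      ENNReal.ofReal (Real.exp (-p)) := by
  have hp0 : 0 < p := by linarith
  have hmeas : Measurable (localDisc ξ) := Pool.Agent.H27.measurable_ldisc ξ
  have h1 := mul_meas_ge_le_pow_eLpNorm' (volume.restrict (Set.Icc (0 : Fin 3 → ℝ) 1))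
    (p := ENNReal.ofReal p) (by simpa using hp0) ENNReal.ofReal_ne_top
    hmeas.aestronglyMeasurable (ENNReal.ofReal (3 * B))
  rw [ENNReal.toReal_ofReal hp0.le] at h1
  have h2 : (ENNReal.ofReal (3 * B)) ^ p *
      volume {x ∈ Set.Icc (0 : Fin 3 → ℝ) 1 | 3 * B ≤ |localDisc ξ x|} ≤ (ENNReal.ofReal B) ^ p := by
    have h3 : volume {x ∈ Set.Icc (0 : Fin 3 → ℝ) 1 | 3 * B ≤ |localDisc ξ x|} =
        (volume.restrict (Set.Icc (0 : Fin 3 → ℝ) 1))
          {x | ENNReal.ofReal (3 * B) ≤ ‖localDisc ξ x‖ₑ} := by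
      rw [Measure.restrict_apply₀ (by
        exact (measurableSet_le measurable_const hmeas.enorm).nullMeasurableSet)]
      congr 1
      ext x
      simp only [Set.mem_ofPred_eq, Set.mem_inter_iff]
      have h4 : ENNReal.ofReal (3 * B) ≤ ‖localDisc ξ x‖ₑ ↔ 3 * B ≤ |localDisc ξ x| := by
        rw [← ofReal_norm, Real.norm_eq_abs,
          ENNReal.ofReal_le_ofReal_iff (abs_nonneg _)]
      rw [h4]
      exact and_comm
    rw [h3]
    exact h1.trans (ENNReal.rpow_le_rpow h hp0.le)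
  have h5 : (ENNReal.ofReal (3 * B)) ^ p = (ENNReal.ofReal 3) ^ p * (ENNReal.ofReal B) ^ p := by
    rw [ENNReal.ofReal_mul (by norm_num), ENNReal.mul_rpow_of_nonneg _ _ hp0.le]
  have hBp0 : (ENNReal.ofReal B) ^ p ≠ 0 :=
    (ENNReal.rpow_pos (ENNReal.ofReal_pos.mpr hB) ENNReal.ofReal_ne_top).ne'
  have hBpt : (ENNReal.ofReal B) ^ p ≠ ⊤ :=
    ENNReal.rpow_ne_top_of_nonneg hp0.le ENNReal.ofReal_ne_top
  set V := volume {x ∈ Set.Icc (0 : Fin 3 → ℝ) 1 | 3 * B ≤ |localDisc ξ x|} with hV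
  have h6 : (ENNReal.ofReal 3) ^ p * V ≤ 1 := by
    rw [h5, mul_comm ((ENNReal.ofReal 3) ^ p) _, mul_assoc] at h2
    have h7 : (ENNReal.ofReal B) ^ p * ((ENNReal.ofReal 3) ^ p * V) ≤
        (ENNReal.ofReal B) ^ p * 1 := by rwa [mul_one]
    exact (ENNReal.mul_le_mul_iff_right hBp0 hBpt).mp h7
  have h8 : ENNReal.ofReal (Real.exp p) ≤ (ENNReal.ofReal 3) ^ p := by
    rw [ENNReal.ofReal_rpow_of_nonneg (by norm_num) hp0.le]
    refine ENNReal.ofReal_le_ofReal ?_
    calc Real.exp p = (Real.exp 1) ^ p := by rw [← Real.exp_mul, one_mul]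
      _ ≤ 3 ^ p := Real.rpow_le_rpow (Real.exp_pos _).le (by linarith [Real.exp_one_lt_d9]) hp0.le
  have h9 : ENNReal.ofReal (Real.exp p) * V ≤ 1 := (mul_le_mul_left h8 V).trans h6
  rw [Real.exp_neg, ENNReal.ofReal_inv_of_pos (Real.exp_pos p)]
  exact ENNReal.le_inv_iff_mul_le.mpr (by rw [mul_comm]; exact h9)

/-- The lower bound without logarithmic loss, from an earlier result. -/
lemma lower_range : ∃ c : ℝ, 0 < c ∧ ∀ m : ℕ, 3 ≤ m → ∀ p : ℝ, 1 ≤ p →
    p ≤ (Real.log m) ^ (1 / 3 : ℝ) / (1 + Real.log (Real.log m)) →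
    ENNReal.ofReal (c * (Real.sqrt p * Real.log m) / m) ≤ optDisc (ENNReal.ofReal p) m 3 := by
  obtain ⟨c, hc, H⟩ := LargeExponents.result 3 le_rfl
  refine ⟨c, hc, fun m hm p hp h => ?_⟩
  obtain ⟨hm0, hL1, hLL⟩ := basics m hm
  have hp0 : 0 ≤ p := by linarith
  obtain ⟨h1, h2⟩ := H m hm (ENNReal.ofReal p)
    (by rw [← ENNReal.ofReal_one]; exact ENNReal.ofReal_le_ofReal hp)
  rw [optDisc_eq']
  refine le_trans ?_ (h1.trans h2)
  have hmin : (ENNReal.ofReal p) ^ (1 / 2 : ℝ) ≤ ENNReal.ofReal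
      ((Real.log m) ^ (1 / (2 * ((3 : ℕ) : ℝ))) / (Real.log (Real.log m)) ^ (1 / 2 : ℝ)) := by
    rw [ENNReal.ofReal_rpow_of_nonneg hp0 (by norm_num)]
    refine ENNReal.ofReal_le_ofReal ?_
    have hell0 : 0 < 1 + Real.log (Real.log m) := by linarith
    calc p ^ (1 / 2 : ℝ) ≤
        ((Real.log m) ^ (1 / 3 : ℝ) / (1 + Real.log (Real.log m))) ^ (1 / 2 : ℝ) :=
          Real.rpow_le_rpow hp0 h (by norm_num)
      _ = ((Real.log m) ^ (1 / 3 : ℝ)) ^ (1 / 2 : ℝ) /
          (1 + Real.log (Real.log m)) ^ (1 / 2 : ℝ) :=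
          Real.div_rpow (by positivity) hell0.le _
      _ = (Real.log m) ^ (1 / (2 * ((3 : ℕ) : ℝ))) /
          (1 + Real.log (Real.log m)) ^ (1 / 2 : ℝ) := by
          rw [← Real.rpow_mul (by linarith)]
          norm_num
      _ ≤ _ := by
          refine div_le_div_of_nonneg_left (by positivity) (by positivity) ?_
          exact Real.rpow_le_rpow hLL.le (by linarith) (by norm_num)
  rw [min_eq_left hmin, ENNReal.ofReal_rpow_of_nonneg hp0 (by norm_num),
    ← ENNReal.ofReal_mul (by positivity)]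
  refine le_of_eq ?_
  congr 1
  have h6 : (Real.log m) ^ ((((3 : ℕ) : ℝ) - 1) / 2) = Real.log m := by
    rw [show ((((3 : ℕ) : ℝ) - 1) / 2) = 1 by norm_num, Real.rpow_one]
  rw [h6, Real.sqrt_eq_rpow]
  ring

/-- **The optimal `L_p` star discrepancy in dimension three for large exponents.** There are
`c, C > 0` and `A` such that for all `m ≥ 3`, with `L = ln m` and `l = 1 + ln ln m`:

* there is one set `ξ` of `m` points of `[0,1]^3` whose `L_p` discrepancy is at most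
  `C (√p L + p² l^(3/2)) / m` for all real `p ≥ 1`, so at most `C √p L / m` if `p ≤ L^(2/3) / l`;
  its local discrepancy is smaller than `C (√p L + p² l^(3/2)) / m` in absolute value outside a
  set of measure at most `exp(-p)`, for all real `p ≥ 1`; and it is smaller than
  `C L^(3/2) l^(3/2) / m` outside a set of measure at most `exp(-L^(3/4))`;
* for all real `p ≥ 1`,
  `c √(min(p, L)) L / (m l^A) ≤ D(m,3)_p ≤ C (√p L + p² l^(3/2)) / m`;
* `D(m,3)_p ≤ C √p L / m` if `p ≤ L^(2/3) / l`, and `c √p L / m ≤ D(m,3)_p` if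
  `p ≤ L^(1/3) / l`, so that `√p L / m` is the exact order there. -/
theorem result : ∃ c C : ℝ, 0 < c ∧ 0 < C ∧ ∃ A : ℕ, ∀ m : ℕ, 3 ≤ m →
    (∃ ξ : Fin m → Fin 3 → ℝ, (∀ μ, ξ μ ∈ Set.Icc (0 : Fin 3 → ℝ) 1) ∧
      (∀ p : ℝ, 1 ≤ p → starDisc (ENNReal.ofReal p) ξ ≤ ENNReal.ofReal
        (C * (Real.sqrt p * Real.log m +
          p ^ 2 * (1 + Real.log (Real.log m)) ^ (3 / 2 : ℝ)) / m)) ∧
      (∀ p : ℝ, 1 ≤ p → p ≤ (Real.log m) ^ (2 / 3 : ℝ) / (1 + Real.log (Real.log m)) →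
        starDisc (ENNReal.ofReal p) ξ ≤ ENNReal.ofReal (C * (Real.sqrt p * Real.log m) / m)) ∧
      (∀ p : ℝ, 1 ≤ p → volume {x ∈ Set.Icc (0 : Fin 3 → ℝ) 1 | C * (Real.sqrt p * Real.log m +
          p ^ 2 * (1 + Real.log (Real.log m)) ^ (3 / 2 : ℝ)) / m ≤ |localDisc ξ x|} ≤
        ENNReal.ofReal (Real.exp (-p))) ∧
      volume {x ∈ Set.Icc (0 : Fin 3 → ℝ) 1 | C * ((Real.log m) ^ (3 / 2 : ℝ) *
          (1 + Real.log (Real.log m)) ^ (3 / 2 : ℝ)) / m ≤ |localDisc ξ x|} ≤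
        ENNReal.ofReal (Real.exp (-(Real.log m) ^ (3 / 4 : ℝ)))) ∧
    ∀ p : ℝ, 1 ≤ p →
      ENNReal.ofReal (c * (Real.sqrt (min p (Real.log m)) * Real.log m) /
          (m * (1 + Real.log (Real.log m)) ^ A)) ≤ optDisc (ENNReal.ofReal p) m 3 ∧
      optDisc (ENNReal.ofReal p) m 3 ≤ ENNReal.ofReal
        (C * (Real.sqrt p * Real.log m +
          p ^ 2 * (1 + Real.log (Real.log m)) ^ (3 / 2 : ℝ)) / m) ∧
      (p ≤ (Real.log m) ^ (2 / 3 : ℝ) / (1 + Real.log (Real.log m)) →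
        optDisc (ENNReal.ofReal p) m 3 ≤ ENNReal.ofReal (C * (Real.sqrt p * Real.log m) / m)) ∧
      (p ≤ (Real.log m) ^ (1 / 3 : ℝ) / (1 + Real.log (Real.log m)) →
        ENNReal.ofReal (c * (Real.sqrt p * Real.log m) / m) ≤
          optDisc (ENNReal.ofReal p) m 3) := by
  obtain ⟨c₁, hc₁, A, H⟩ := StarDiscHalfDim.result 3 le_rfl
  obtain ⟨c₂, hc₂, H₂⟩ := lower_range
  have hc : 0 < min c₁ c₂ := lt_min hc₁ hc₂
  refine ⟨min c₁ c₂, 480000000, hc, by norm_num, A, fun m hm => ?_⟩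
  obtain ⟨hm0, hL1, hLL⟩ := basics m hm
  obtain ⟨ξ, hξ, hall⟩ := upper m hm
  have u1 : ∀ p : ℝ, 1 ≤ p → starDisc (ENNReal.ofReal p) ξ ≤ ENNReal.ofReal
        (480000000 * (Real.sqrt p * Real.log m +
          p ^ 2 * (1 + Real.log (Real.log m)) ^ (3 / 2 : ℝ)) / m) := by
    intro p hp
    refine (hall p hp).trans (ENNReal.ofReal_le_ofReal ?_)
    refine div_le_div_of_nonneg_right ?_ hm0.le
    exact mul_le_mul_of_nonneg_right (by norm_num) (by positivity)
  have u2 : ∀ p : ℝ, 1 ≤ p → p ≤ (Real.log m) ^ (2 / 3 : ℝ) / (1 + Real.log (Real.log m)) →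
      starDisc (ENNReal.ofReal p) ξ ≤
        ENNReal.ofReal (160000000 * (Real.sqrt p * Real.log m) / m) := by
    intro p hp h
    exact (hall p hp).trans (ENNReal.ofReal_le_ofReal (bound_range m hm p hp h))
  have u3 : ∀ p : ℝ, 1 ≤ p → p ≤ (Real.log m) ^ (2 / 3 : ℝ) / (1 + Real.log (Real.log m)) →
      starDisc (ENNReal.ofReal p) ξ ≤
        ENNReal.ofReal (480000000 * (Real.sqrt p * Real.log m) / m) := by
    intro p hp h
    refine (u2 p hp h).trans (ENNReal.ofReal_le_ofReal ?_)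
    refine div_le_div_of_nonneg_right ?_ hm0.le
    exact mul_le_mul_of_nonneg_right (by norm_num) (by positivity)
  have u4 : ∀ p : ℝ, 1 ≤ p → volume {x ∈ Set.Icc (0 : Fin 3 → ℝ) 1 |
      240000000 * (Real.sqrt p * Real.log m +
          p ^ 2 * (1 + Real.log (Real.log m)) ^ (3 / 2 : ℝ)) / m ≤ |localDisc ξ x|} ≤
        ENNReal.ofReal (Real.exp (-p)) := by
    intro p hp
    have hp0 : 0 < p := by linarith
    have h2 := tail m ξ p (80000000 * (Real.sqrt p * Real.log m +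
      p ^ 2 * (1 + Real.log (Real.log m)) ^ (3 / 2 : ℝ)) / m) hp (by positivity) (hall p hp)
    have h3 : 3 * (80000000 * (Real.sqrt p * Real.log m +
      p ^ 2 * (1 + Real.log (Real.log m)) ^ (3 / 2 : ℝ)) / m) =
      240000000 * (Real.sqrt p * Real.log m +
      p ^ 2 * (1 + Real.log (Real.log m)) ^ (3 / 2 : ℝ)) / m := by ring
    rw [h3] at h2
    exact h2
  refine ⟨⟨ξ, hξ, u1, u3, ?_, ?_⟩, fun p hp => ⟨?_, ?_, ?_, ?_⟩⟩
  · intro p hp
    refine (measure_mono ?_).trans (u4 p hp)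
    rintro x ⟨hx, hx'⟩
    refine ⟨hx, le_trans ?_ hx'⟩
    refine div_le_div_of_nonneg_right ?_ hm0.le
    exact mul_le_mul_of_nonneg_right (by norm_num) (by positivity)
  · have hp : 1 ≤ (Real.log m) ^ (3 / 4 : ℝ) := Real.one_le_rpow hL1.le (by norm_num)
    refine (measure_mono ?_).trans (u4 _ hp)
    rintro x ⟨hx, hx'⟩
    refine ⟨hx, le_trans ?_ hx'⟩
    refine div_le_div_of_nonneg_right ?_ hm0.le
    have e1 : Real.sqrt ((Real.log m) ^ (3 / 4 : ℝ)) * Real.log m ≤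
        (Real.log m) ^ (3 / 2 : ℝ) := by
      rw [Real.sqrt_eq_rpow, ← Real.rpow_mul (by linarith)]
      calc (Real.log m) ^ (3 / 4 * (1 / 2) : ℝ) * Real.log m
          = (Real.log m) ^ (3 / 4 * (1 / 2) + 1 : ℝ) := by
            rw [Real.rpow_add (by linarith), Real.rpow_one]
        _ ≤ _ := Real.rpow_le_rpow_of_exponent_le hL1.le (by norm_num)
    have e2 : ((Real.log m) ^ (3 / 4 : ℝ)) ^ 2 = (Real.log m) ^ (3 / 2 : ℝ) := by
      rw [← Real.rpow_natCast, ← Real.rpow_mul (by linarith)]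
      norm_num
    have e3 : 1 ≤ (1 + Real.log (Real.log m)) ^ (3 / 2 : ℝ) :=
      Real.one_le_rpow (by linarith) (by norm_num)
    have e4 : 0 ≤ (Real.log m) ^ (3 / 2 : ℝ) := by positivity
    rw [e2]
    nlinarith
  · obtain ⟨h1, _, h3⟩ := H m hm
    have h4 := (h1 (ENNReal.ofReal p)
      (by rw [← ENNReal.ofReal_one]; exact ENNReal.ofReal_le_ofReal hp)).trans
      (h3 (ENNReal.ofReal p))
    rw [← optDisc_eq] at h4
    refine le_trans ?_ h4
    have hp0 : 0 ≤ p := by linarith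
    have h5 : min ((ENNReal.ofReal p) ^ (1 / 2 : ℝ))
        (ENNReal.ofReal ((Real.log m) ^ (1 / 2 : ℝ))) =
        ENNReal.ofReal (Real.sqrt (min p (Real.log m))) := by
      rw [ENNReal.ofReal_rpow_of_nonneg hp0 (by norm_num), Real.sqrt_eq_rpow]
      rcases le_total p (Real.log m) with h | h
      · rw [min_eq_left h, min_eq_left]
        exact ENNReal.ofReal_le_ofReal (Real.rpow_le_rpow hp0 h (by norm_num))
      · rw [min_eq_right h, min_eq_right]
        exact ENNReal.ofReal_le_ofReal (Real.rpow_le_rpow (by linarith) h (by norm_num))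
    rw [h5, ← ENNReal.ofReal_mul (by positivity)]
    refine ENNReal.ofReal_le_ofReal ?_
    have h6 : (Real.log m) ^ ((((3 : ℕ) : ℝ) - 1) / 2) = Real.log m := by
      rw [show ((((3 : ℕ) : ℝ) - 1) / 2) = 1 by norm_num, Real.rpow_one]
    rw [h6]
    have hden : 0 < m * (1 + Real.log (Real.log m)) ^ A := by positivity
    have h7 : c₁ * Real.log m / (m * (1 + Real.log (Real.log m)) ^ A) *
        Real.sqrt (min p (Real.log m)) = c₁ * (Real.sqrt (min p (Real.log m)) * Real.log m) /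
        (m * (1 + Real.log (Real.log m)) ^ A) := by ring
    rw [h7]
    refine div_le_div_of_nonneg_right ?_ hden.le
    exact mul_le_mul_of_nonneg_right (min_le_left _ _) (by positivity)
  · exact (iInf₂_le ξ hξ).trans (u1 p hp)
  · intro h
    exact (iInf₂_le ξ hξ).trans (u3 p hp h)
  · intro h
    refine le_trans (ENNReal.ofReal_le_ofReal ?_) (H₂ m hm p hp h)
    refine div_le_div_of_nonneg_right ?_ hm0.le
    exact mul_le_mul_of_nonneg_right (min_le_right _ _) (by positivity)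

end Pool.Agent.Results.MP_173de9_an.LargeExponentsThree
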